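import Mathlib.Tactic

/-!
# GAP1, `h = d2`: the real inequality N4 (helper29)
-/

namespace Pool.Agent.Helper81.DY

/-- left end of region II / right end of region I -/
theorem n4_P1 {e p : ℝ} (hp1 : 0.707 ≤ p) (hp2 : p ≤ 0.7072) (he0 : 0 < e) (he1 : e ≤ 0.592) :
    0 < (1+e^2)^2*p*((1+e^2)-p*e) - e*((1+e^2)*e+(1-e^2)*p)^2 := by
  have h1 : (1+e^2)*e+(1-e^2)*p ≤ 0.937*(1+e^2) := by
    have q1 : 0 ≤ e^2 - 1.0522*e + 0.3771 := by nlinarith only [sq_nonneg (e - 0.5261)]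
    have q2 := mul_nonneg (sub_nonneg.2 he1) q1
    have q3 : 0 ≤ (0.7072 - p) * (1 - e^2) := mul_nonneg (by linarith only [hp2]) (by nlinarith only [he0, q1, q2])
    nlinarith only [q2, q3]
  have h0 : 0 ≤ (1+e^2)*e+(1-e^2)*p := by nlinarith only [hp1, hp2, he0, he1, mul_pos he0 he0]
  have h2 : ((1+e^2)*e+(1-e^2)*p)^2 ≤ 0.88*(1+e^2)^2 := by
    have : ((1+e^2)*e+(1-e^2)*p)^2 ≤ (0.937*(1+e^2))^2 := by
      apply pow_le_pow_left₀ h0 h1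
    nlinarith only [this, sq_nonneg (1+e^2)]
  have h3 : 0 < p*((1+e^2)-p*e) - 0.88*e := by
    have q1 : p * p ≤ 0.7072 * 0.7072 := by nlinarith only [hp1, hp2]
    have q2 : p * p * e ≤ 0.7072 * 0.7072 * e := mul_le_mul_of_nonneg_right q1 he0.le
    have q3 : 0.707 * (1 + e^2) ≤ p * (1 + e^2) := mul_le_mul_of_nonneg_right hp1 (by positivity)
    nlinarith only [he1, q2, q3, sq_nonneg (e - 0.6)]
  have h4 : e*((1+e^2)*e+(1-e^2)*p)^2 ≤ e*(0.88*(1+e^2)^2) := mul_le_mul_of_nonneg_left h2 he0.le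
  nlinarith only [h4, mul_pos h3 (show 0 < (1+e^2)^2 by positivity)]

theorem n4_P2 {e p : ℝ} (hp1 : 0.707 ≤ p) (hp2 : p ≤ 0.7072) (he0 : 0 < e) (he1 : e ≤ 0.592) :
    0 < (1+e^2)^2*e*(1-e^2)^2 + p*(1+e^2)^3*(1-e^2) - e*(1+e^2)^2
      - 2*p*e^2*(1+e^2)*(1-e^2) - p^2*e^3*(1-e^2)^2 := by
  have hd : 0 ≤ 1 - e^2 := by nlinarith only [he0, he1]
  have q1 : 0.707 * ((1+e^2)*(1-e^2)*((1+e^2)^2 - 2*e^2)) ≤ p * ((1+e^2)*(1-e^2)*((1+e^2)^2 - 2*e^2)) := by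
    apply mul_le_mul_of_nonneg_right hp1
    apply mul_nonneg (mul_nonneg (by positivity) hd)
    nlinarith only [sq_nonneg (e^2)]
  have q2 : p^2*(e^3*(1-e^2)^2) ≤ 0.5002*(e^3*(1-e^2)^2) := by
    apply mul_le_mul_of_nonneg_right _ (by positivity)
    nlinarith
  -- one variable polynomial
  have q3 : 0 < (1+e^2)^2*e*(1-e^2)^2 + 0.707 * ((1+e^2)*(1-e^2)*((1+e^2)^2 - 2*e^2)) - e*(1+e^2)^2
      - 0.5002*(e^3*(1-e^2)^2) := by
    have : (1+e^2)^2*e*(1-e^2)^2 + 0.707 * ((1+e^2)*(1-e^2)*((1+e^2)^2 - 2*e^2)) - e*(1+e^2)^2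
      - 0.5002*(e^3*(1-e^2)^2) = 0.707 - 2.5002*e^3 + (-3+1.0004)*e^5 - 0.5002*e^7 - 0.707*e^8 + e^9 := by
      ring
    rw [this]
    have e3 : e^3 ≤ 0.592^3 := pow_le_pow_left₀ he0.le he1 3
    have e5 : e^5 ≤ 0.592^5 := pow_le_pow_left₀ he0.le he1 5
    have e7 : e^7 ≤ 0.592^7 := pow_le_pow_left₀ he0.le he1 7
    have e8 : e^8 ≤ 0.592^8 := pow_le_pow_left₀ he0.le he1 8
    have e9 : 0 < e^9 := by positivity
    norm_num at e3 e5 e7 e8 ⊢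
    linarith only [e9, e3, e5, e7, e8]
  nlinarith only [q1, q2, q3]

theorem n4_P3 {e : ℝ} (he0 : 0 < e) (he1 : e ≤ 0.592) :
    0 < (1+e^2)*(1-e^4) - e*(1+e^4) := by
  have e4 : e^4 ≤ 0.592^4 := pow_le_pow_left₀ he0.le he1 4
  norm_num at e4
  nlinarith only [he0, he1, mul_pos he0 he0, mul_nonneg he0.le (sub_nonneg.2 e4)]

/-- region II: `F(t) > 0` on `[c - pe, c/d]` -/
theorem n4_II {e p t : ℝ} (hp1 : 0.707 ≤ p) (hp2 : p ≤ 0.7072) (he0 : 0 < e) (he1 : e ≤ 0.592)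
    (ht1 : (1+e^2) - p*e ≤ t) (ht2 : (1-e^2)*t ≤ 1+e^2) :
    0 < (1+e^2)^2*(e^2+p*e*t) - e^2*(t+p*e)^2 - ((1+e^2)-(1-e^2)*t)^2 := by
  have P1 := n4_P1 hp1 hp2 he0 he1
  have P2 := n4_P2 hp1 hp2 he0 he1
  have hd : 0 < 1 - e^2 := by nlinarith only [he0, he1]
  have hcl : 0 < (1+e^2) - (1-e^2)*((1+e^2) - p*e) := by
    have : (1+e^2) - (1-e^2)*((1+e^2) - p*e) = e^2*(1+e^2) + (1-e^2)*p*e := by ring
    rw [this]; positivity
  have key : (1-e^2)*((1+e^2) - (1-e^2)*((1+e^2) - p*e)) *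
      ((1+e^2)^2*(e^2+p*e*t) - e^2*(t+p*e)^2 - ((1+e^2)-(1-e^2)*t)^2)
      = (1-e^2) * (e*((1+e^2)^2*p*((1+e^2)-p*e) - e*((1+e^2)*e+(1-e^2)*p)^2)) * ((1+e^2) - (1-e^2)*t)
        + (e*((1+e^2)^2*e*(1-e^2)^2 + p*(1+e^2)^3*(1-e^2) - e*(1+e^2)^2
      - 2*p*e^2*(1+e^2)*(1-e^2) - p^2*e^3*(1-e^2)^2)) * (t - ((1+e^2) - p*e))
        + ((1-e^2)^2+e^2)*(((1+e^2) - (1-e^2)*t)*(t - ((1+e^2) - p*e)))*((1+e^2) - (1-e^2)*((1+e^2) - p*e)) := by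
    ring
  by_contra hcon
  push Not at hcon
  have h1 : (1-e^2)*((1+e^2) - (1-e^2)*((1+e^2) - p*e)) *
      ((1+e^2)^2*(e^2+p*e*t) - e^2*(t+p*e)^2 - ((1+e^2)-(1-e^2)*t)^2) ≤ 0 :=
    mul_nonpos_of_nonneg_of_nonpos (mul_pos hd hcl).le hcon
  rw [key] at h1
  set u := (1+e^2) - (1-e^2)*t with hu
  set w := t - ((1+e^2) - p*e) with hw
  have hu0 : 0 ≤ u := by rw [hu]; linarith only [ht2]
  have hw0 : 0 ≤ w := by rw [hw]; linarith only [ht1]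
  have huw : u + (1-e^2)*w = (1+e^2) - (1-e^2)*((1+e^2) - p*e) := by rw [hu, hw]; ring
  have a1 : 0 < (1-e^2) * (e*((1+e^2)^2*p*((1+e^2)-p*e) - e*((1+e^2)*e+(1-e^2)*p)^2)) :=
    mul_pos hd (mul_pos he0 P1)
  have a2 := mul_pos he0 P2
  have a3 : 0 ≤ ((1-e^2)^2+e^2)*(u*w)*((1+e^2) - (1-e^2)*((1+e^2) - p*e)) := by positivity
  have a4 : 0 ≤ (1-e^2) * (e*((1+e^2)^2*p*((1+e^2)-p*e) - e*((1+e^2)*e+(1-e^2)*p)^2)) * u :=
    mul_nonneg a1.le hu0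
  have a5 := mul_nonneg a2.le hw0
  rcases hu0.eq_or_lt with h | h
  · have hw1 : 0 < w := by
      rcases hw0.eq_or_lt with h' | h'
      · rw [← h, ← h'] at huw; simp at huw; linarith only [hcl, huw]
      · exact h'
    have := mul_pos a2 hw1
    linarith only [h1, a3, a4, this]
  · have := mul_pos a1 h
    linarith only [h1, a3, a5, this]

/-- region I: `G(t) > 0` on `[(c+e)/2, c - pe]` -/
theorem n4_I {e p t : ℝ} (hp1 : 0.707 ≤ p) (hp2 : p ≤ 0.7072) (he0 : 0 < e) (he1 : e ≤ 0.592)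
    (ht1 : (1+e^2+e)/2 ≤ t) (ht2 : t ≤ (1+e^2) - p*e) :
    0 < (1+e^2)^2*(t*((1+e^2)-t)) - ((1+e^2)-(1-e^2)*t)^2 := by
  have P1 := n4_P1 hp1 hp2 he0 he1
  have P3 := n4_P3 he0 he1
  have key : ((1+e^2) - p*e - (1+e^2+e)/2) * ((1+e^2)^2*(t*((1+e^2)-t)) - ((1+e^2)-(1-e^2)*t)^2)
     = (e*((1+e^2)*(1-e^4) - e*(1+e^4))/2) * ((1+e^2) - p*e - t)
       + (e*((1+e^2)^2*p*((1+e^2)-p*e) - e*((1+e^2)*e+(1-e^2)*p)^2)) * (t - (1+e^2+e)/2)
       + (2+2*e^4)*((((1+e^2) - p*e - t))*(t - (1+e^2+e)/2))*((1+e^2) - p*e - (1+e^2+e)/2) := by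
    ring
  have hr : 0 < (1+e^2) - p*e - (1+e^2+e)/2 ∨ ((1+e^2) - p*e - (1+e^2+e)/2) = 0 := by
    rcases lt_or_eq_of_le (show 0 ≤ (1+e^2) - p*e - (1+e^2+e)/2 by linarith only [ht1, ht2]) with h | h
    · exact Or.inl h
    · exact Or.inr h.symm
  rcases hr with hr | hr
  · by_contra hcon
    push Not at hcon
    have h1 := mul_nonpos_of_nonneg_of_nonpos hr.le hcon
    rw [key] at h1
    have b1 : 0 < e*((1+e^2)*(1-e^4) - e*(1+e^4))/2 := by positivity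
    have b2 := mul_pos he0 P1
    have b3 : 0 ≤ (2+2*e^4)*((((1+e^2) - p*e - t))*(t - (1+e^2+e)/2))*((1+e^2) - p*e - (1+e^2+e)/2) := by
      have : 0 ≤ ((1+e^2) - p*e - t)*(t - (1+e^2+e)/2) := mul_nonneg (by linarith only [ht2]) (by linarith only [ht1])
      positivity
    rcases lt_or_ge ((1+e^2+e)/2) t with h | h
    · have := mul_pos b2 (sub_pos.2 h)
      have h2 := mul_nonneg b1.le (sub_nonneg.2 ht2)
      linarith only [h1, b3, this, h2]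
    · have : 0 < (1+e^2) - p*e - t := by linarith only [hr, h]
      have h2 := mul_pos b1 this
      have h3 := mul_nonneg b2.le (sub_nonneg.2 ht1)
      linarith only [h1, b3, h2, h3]
  · have ht : t = (1+e^2) - p*e := by linarith only [ht1, ht2, hr]
    rw [ht]
    have : (1+e^2)^2*(((1+e^2) - p*e)*((1+e^2)-((1+e^2) - p*e))) - ((1+e^2)-(1-e^2)*((1+e^2) - p*e))^2
       = e*((1+e^2)^2*p*((1+e^2)-p*e) - e*((1+e^2)*e+(1-e^2)*p)^2) := by ring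
    rw [this]
    exact mul_pos he0 P1

theorem n4_core {e p t δ Y : ℝ} (hp1 : 0.707 ≤ p) (hp2 : p ≤ 0.7072) (he0 : 0 < e)
    (he1 : e ≤ 0.592) (hneg : (1+e^2)*δ ≤ (1+e^2) - (1-e^2)*t) (hδ : 0 < δ) (hx : δ + e ≤ t)
    (hY : 1 ≤ Y) (hn : δ^2 = e^2 - t^2 - e^2*Y^2 + (1+e^2)*t*Y) (hA : 2*e^2*Y ≤ (1+e^2)*t)
    (hc : t + p*e ≤ (1+e^2)*Y) : False := by
  have hc0 : 0 < 1 + e^2 := by positivity
  have hd : 0 < 1 - e^2 := by nlinarith only [he0, he1]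
  have hcd : 0 < (1+e^2)*δ := mul_pos hc0 hδ
  have hsq : ((1+e^2)*δ)^2 ≤ ((1+e^2) - (1-e^2)*t)^2 := pow_le_pow_left₀ hcd.le hneg 2
  rcases le_total ((1+e^2) - p*e) t with h | h
  · have := n4_II hp1 hp2 he0 he1 h (by linarith only [hneg, hcd])
    -- (II)
    have q : 0 ≤ ((1+e^2)*Y - (t+p*e)) * ((1+e^2)*((1+e^2)*t) - e^2*((1+e^2)*Y + (t+p*e))) := by
      apply mul_nonneg (by linarith only [hc])
      have h1 : e^2*((1+e^2)*Y + (t+p*e)) ≤ e^2*((1+e^2)*Y + (1+e^2)*Y) :=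
        mul_le_mul_of_nonneg_left (by linarith only [hc]) (by positivity)
      have h2 := mul_le_mul_of_nonneg_left hA hc0.le
      nlinarith only [h1, h2]
    have q2 : ((1+e^2)*δ)^2 - ((1+e^2)^2*(e^2+p*e*t) - e^2*(t+p*e)^2)
       = ((1+e^2)*Y - (t+p*e)) * ((1+e^2)*((1+e^2)*t) - e^2*((1+e^2)*Y + (t+p*e))) := by
      rw [mul_pow, hn]; ring
    linarith only [hsq, this, q, q2]
  · -- (I)
    have q : 0 ≤ (Y-1)*((1+e^2)*t - e^2*(Y+1)) := by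
      apply mul_nonneg (by linarith only [hY])
      have : e^2*(Y+1) ≤ e^2*(2*Y) := mul_le_mul_of_nonneg_left (by linarith only [hY]) (by positivity)
      nlinarith only [hA, this]
    have q2 : δ^2 - t*((1+e^2)-t) = (Y-1)*((1+e^2)*t - e^2*(Y+1)) := by rw [hn]; ring
    have q3 : δ^2 ≤ (t-e)^2 := pow_le_pow_left₀ hδ.le (by linarith only [hx]) 2
    have q4 : 0 ≤ 2*t^2 - (1+e^2+2*e)*t + e^2 := by nlinarith only [q, q2, q3]
    have hte : e < t := by linarith only [hδ, hx]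
    have ht1 : (1+e^2+e)/2 ≤ t := by
      by_contra hcon
      push Not at hcon
      have : 0 < (t - e) * ((1+e^2+e)/2 - t) := mul_pos (by linarith only [hte]) (by linarith only [hcon])
      nlinarith only [he0, q4, hcon, this]
    have := n4_I hp1 hp2 he0 he1 ht1 h
    have q5 : (1+e^2)^2*(t*((1+e^2)-t)) ≤ (1+e^2)^2*δ^2 :=
      mul_le_mul_of_nonneg_left (by linarith only [q, q2]) (by positivity)
    nlinarith only [hsq, this, q5]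

theorem n4 {b p e X Y x : ℝ} (hp : 2*p^2 = 1) (hp0 : 0 < p) (hb0 : 0 < b) (hb : 2*b+1 ≤ 4*b^2)
    (he0 : 0 < e) (he1 : e ≤ 1) (he : e^2-4*p*b*e+1 = 0) (hY : 1 ≤ Y) (hx : 1 ≤ x)
    (hn : Y^2+X^2+x^2-2*b*X*Y-2*p*X*x = 1) (hD : 0 < p*X-x) (hA : Y < b*X)
    (hc : 1 ≤ 4*b*Y-X) : 2*b*(1+e*x) < X := by
  have hp1 : 0.707 ≤ p := by nlinarith only [hp, hp0]
  have hp2 : p ≤ 0.7072 := by nlinarith only [hp]
  have hc' : 1 + e^2 = 4*p*b*e := by linarith only [he]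
  have hee : e ≤ 0.592 := by
    by_contra hcon
    push Not at hcon
    -- b ≥ 0.809
    have hb1 : 0.809 ≤ b := by nlinarith only [hb0, hb]
    have h1 : 2.287 * e ≤ 1 + e^2 := by
      rw [hc']
      have : 2.287 ≤ 4*p*b := by nlinarith only [hp1, hb1]
      nlinarith only [hcon, this]
    nlinarith only [h1, mul_nonneg (sub_nonneg.2 hcon.le) (sub_nonneg.2 he1)]
  by_contra hcon
  push Not at hcon
  apply n4_core (e := e) (p := p) (t := e*(p*X)) (δ := e*(p*X-x)) (Y := Y) hp1 hp2 he0 hee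
  · -- hneg
    have h1 : 2*p*e*X ≤ 2*p*e*(2*b*(1+e*x)) := mul_le_mul_of_nonneg_left hcon (by positivity)
    have h2 : 2*p*e*(2*b*(1+e*x)) = (1+e^2)*(1+e*x) := by rw [hc']; ring
    nlinarith only [h1, h2]
  · positivity
  · nlinarith only [he0, hx]
  · exact hY
  · rw [hc']
    have : Y^2 = 1 - X^2 - x^2 + 2*b*X*Y + 2*p*X*x := by linarith only [hn]
    rw [this]
    have h2 : X^2 = 2*p^2*X^2 := by rw [hp]; ring
    have h3 : 2*b*X*Y = 4*p^2*b*X*Y := by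
      have : 4*p^2*b*X*Y = (2*p^2)*(2*b*X*Y) := by ring
      rw [this, hp]; ring
    rw [h3]
    have h4 : (1 - X^2 - x^2 + 4*p^2*b*X*Y + 2*p*X*x) = (1 - 2*p^2*X^2 - x^2 + 4*p^2*b*X*Y + 2*p*X*x) := by
      rw [← h2]
    rw [h4]
    ring
  · rw [hc']
    have h3 : 4*p*b*e*(e*(p*X)) = 2*e^2*(b*X) := by
      have : 4*p*b*e*(e*(p*X)) = (2*p^2)*(2*e^2*(b*X)) := by ring
      rw [this, hp]; ring
    rw [h3]
    have := mul_le_mul_of_nonneg_left hA.le (show 0 ≤ 2*e^2 by positivity)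
    linarith only [this]
  · rw [hc']
    have := mul_le_mul_of_nonneg_left hc (show 0 ≤ p*e by positivity)
    nlinarith only [this]

end Pool.Agent.Helper81.DY
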