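import Mathlib.Tactic

/-!
# GAP1, `h = d2`: the real inequality N6 (helper29)

The products are explicit (no search in long contexts), so that the file builds in a few seconds.
-/

namespace Pool.Agent.Helper81.DY

private theorem n6_q99 {q : ℝ} (hq : 1 ≤ 2*q^2) (hq0 : 0 < q) : 0.7071 ≤ q := by
  by_contra h
  push Not at h
  have h1 : q^2 < 0.7071^2 := pow_lt_pow_left₀ h hq0.le (by norm_num)
  norm_num at h1
  linarith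

/-- `(1 - bτ) Y + τ B ≥ 2q` -/
theorem n6_R {b q τ Y B : ℝ} (hτ0 : 0 < τ) (hτb : τ ≤ b) (hY0 : 0 < Y)
    (hY : 2*q ≤ Y) (hB0 : 0 < B) (hB : 2*q*Y - (1-b^2)*Y^2 ≤ B^2) :
    2*q ≤ (1-b*τ)*Y+τ*B := by
  by_contra hcon
  push Not at hcon
  have h1 : τ*B < 2*q - (1-b*τ)*Y := by linarith
  have hτB : 0 < τ*B := mul_pos hτ0 hB0
  have h2 : (τ*B)^2 < (2*q - (1-b*τ)*Y)^2 := pow_lt_pow_left₀ h1 hτB.le (by norm_num)
  have h3 : τ^2*(2*q*Y - (1-b^2)*Y^2) ≤ τ^2*B^2 := mul_le_mul_of_nonneg_left hB (sq_nonneg τ)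
  have h4 : 0 < (2*q-Y)*(2*q-(1-2*b*τ+τ^2)*Y) := by
    have : (2*q-Y)*(2*q-(1-2*b*τ+τ^2)*Y) = (2*q - (1-b*τ)*Y)^2 - τ^2*(2*q*Y - (1-b^2)*Y^2) := by ring
    rw [this]; rw [mul_pow] at h2; linarith
  have h50 : τ*τ ≤ b*τ := mul_le_mul_of_nonneg_right hτb hτ0.le
  have h5 : (1-2*b*τ+τ^2)*Y ≤ (1-b*τ)*Y := by
    apply mul_le_mul_of_nonneg_right _ hY0.le
    have : τ^2 = τ*τ := by ring
    linarith
  have h6 : 0 ≤ 2*q-(1-2*b*τ+τ^2)*Y := by linarith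
  have h7 := mul_nonpos_of_nonpos_of_nonneg (show 2*q-Y ≤ 0 by linarith) h6
  linarith

/-! ### `b ≥ 1` -/

private theorem n6_nu99 {b ν : ℝ} (hb1 : 1 ≤ b) (hν0 : 0 ≤ ν) (hν : ν^2 = b^2 - 1) :
    ν ≤ b ∧ b - ν ≤ 1 := by
  constructor
  · by_contra h
    push Not at h
    have h1 : b^2 < ν^2 := pow_lt_pow_left₀ h (by linarith) (by norm_num)
    linarith
  · by_contra h
    push Not at h
    have h1 : 1*(b+ν) < (b-ν)*(b+ν) := mul_lt_mul_of_pos_right h (by linarith)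
    have h2 : (b-ν)*(b+ν) = b^2 - ν^2 := by ring
    linarith

private theorem n6_Bl99 {b q Y B ν : ℝ} (hq0 : 0 < q) (hY : 2*q ≤ Y) (hB0 : 0 < B)
    (hB : 2*q*Y - (1-b^2)*Y^2 ≤ B^2) (hν : ν^2 = b^2 - 1) : 2*q*b + ν*(Y-2*q) ≤ B := by
  by_contra hcon
  push Not at hcon
  have h1 : B^2 < (2*q*b + ν*(Y-2*q))^2 := pow_lt_pow_left₀ hcon hB0.le (by norm_num)
  have h2 : 2*q*Y - (1-b^2)*Y^2 - (2*q*b + ν*(Y-2*q))^2 = 2*q*(Y-2*q)*(b-ν)^2 := by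
    have : b^2 = ν^2 + 1 := by linarith
    have e1 : 2*q*Y - (1-b^2)*Y^2 - (2*q*b + ν*(Y-2*q))^2
      = 2*q*Y - (1-b^2)*Y^2 - (4*q^2*b^2 + 4*q*b*ν*(Y-2*q) + ν^2*(Y-2*q)^2) := by ring
    have e2 : 2*q*(Y-2*q)*(b-ν)^2 = 2*q*(Y-2*q)*(b^2 - 2*b*ν + ν^2) := by ring
    rw [e1, e2, this]; ring
  have h3 : 0 ≤ 2*q*(Y-2*q)*(b-ν)^2 := by
    apply mul_nonneg (mul_nonneg (by linarith) (by linarith)) (sq_nonneg _)
  linarith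

private theorem n6_e99 {b q e : ℝ} (hq : 0.7071 ≤ q) (hb1 : 1 ≤ b)
    (he0 : 0 < e) (he1 : e ≤ 1) (he : e^2-4*q*b*e+1 = 0) : e ≤ 0.41425 ∧ 2*q*e ≤ 0.586 := by
  have h0 : 0.7071*1 ≤ q*b := mul_le_mul hq hb1 (by norm_num) (by linarith)
  have h1 : 0.7071*1*e ≤ q*b*e := mul_le_mul_of_nonneg_right h0 he0.le
  have he2 : e ≤ 0.41425 := by
    by_contra hcon
    push Not at hcon
    have h2 := mul_nonneg (sub_nonneg.2 hcon.le) (sub_nonneg.2 he1)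
    have h3 : (e - 0.41425)*(1-e) = 1.41425*e - 0.41425 - e^2 := by ring
    linarith
  refine ⟨he2, ?_⟩
  have h2 : 2*q*e*1 ≤ 2*q*e*b := mul_le_mul_of_nonneg_left hb1 (by positivity)
  have h3 : e*e ≤ 0.41425*0.41425 := mul_le_mul he2 he2 he0.le (by norm_num)
  have h4 : e^2 = e*e := by ring
  norm_num at h3
  linarith

private theorem n6_slope99 {b ν τ A : ℝ} (hb1 : 1 ≤ b) (hκ0 : ν ≤ b) (hκ : b - ν ≤ 1)
    (hν : ν^2 = b^2 - 1) (hτ0 : 0 < τ) (hτ1 : τ < 1) (hA : τ ≤ A*(2*b+1)) :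
    τ*(b-ν) - 2*A ≤ 1/3 := by
  have h1 : (b-ν)*(b-ν) ≤ 1*(b-ν) := mul_le_mul_of_nonneg_right hκ (by linarith)
  have h2 : (b-ν)*(2*b+1) = (b-ν)*(b-ν) + (b^2-ν^2) + (b-ν) := by ring
  have h3 : (b-ν)*(2*b+1) ≤ 3 := by linarith
  have h4 : τ*((b-ν)*(2*b+1)) ≤ τ*3 := mul_le_mul_of_nonneg_left h3 hτ0.le
  have h5 : (τ*(b-ν) - 2*A)*(2*b+1) = τ*((b-ν)*(2*b+1)) - 2*(A*(2*b+1)) := by ring
  by_contra hcon
  push Not at hcon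
  have h7 : (1/3)*(2*b+1) < (τ*(b-ν) - 2*A)*(2*b+1) := mul_lt_mul_of_pos_right hcon (by linarith)
  linarith

private theorem n6_A99 {b τ A : ℝ} (hb0 : 0 < b) (hτ0 : 0 < τ) (hA : τ ≤ A*(2*b+1)) : 0 < A := by
  by_contra hcon
  push Not at hcon
  have := mul_nonpos_of_nonpos_of_nonneg hcon (show (0:ℝ) ≤ 2*b+1 by linarith)
  linarith

private theorem n6_qA99 {q A : ℝ} (hq : 1 ≤ 2*q^2) (hA0 : 0 < A) : 2*A ≤ 4*q^2*A := by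
  have h := mul_le_mul_of_nonneg_right hq (show (0:ℝ) ≤ 2*A by linarith)
  have e1 : 2*q^2*(2*A) = 4*q^2*A := by ring
  linarith

private theorem n6_ee99 {b q e : ℝ} (hq : 1 ≤ 2*q^2) (hb1 : 1 ≤ b)
    (he0 : 0 < e) (he1 : e ≤ 1) (he : e^2-4*q*b*e+1 = 0) : e^2 + 2*e ≤ 1 := by
  by_contra hcon
  push Not at hcon
  have h4 : 8*e^2 ≤ (1+e^2)^2 := by
    have h1 : (1+e^2)^2 = 8*e^2*((2*q^2)*b^2) := by
      have : 1 + e^2 = 4*q*b*e := by linarith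
      rw [this]; ring
    rw [h1]
    have h2 : 1 ≤ (2*q^2)*b^2 := one_le_mul_of_one_le_of_one_le hq (one_le_pow₀ hb1)
    have h3 := mul_le_mul_of_nonneg_left h2 (show (0:ℝ) ≤ 8*e^2 by positivity)
    linarith
  have h5 : (1+e^2)^2 - 8*e^2 = (e^2+2*e-1)*(e^2-2*e-1) := by ring
  have h6 : e^2-2*e-1 < 0 := by
    have : e*e ≤ 1*e := mul_le_mul_of_nonneg_right he1 he0.le
    have e1 : e^2 = e*e := by ring
    linarith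
  have h7 := mul_neg_of_pos_of_neg (show 0 < e^2+2*e-1 by linarith) h6
  linarith

private theorem n6_gam99 {b q e A : ℝ} (hq : 1 ≤ 2*q^2) (hq0 : 0 < q) (hb1 : 1 ≤ b) (hA0 : 0 < A)
    (he0 : 0 < e) (he1 : e ≤ 1) (he : e^2-4*q*b*e+1 = 0) : (e - 2*q*A)*(2*q+1) < 1 := by
  have h1 : (e - 2*q*A)*(2*q+1) < e*(2*q+1) := by
    apply mul_lt_mul_of_pos_right _ (by linarith)
    have := mul_pos hq0 hA0
    linarith
  have h2 : 2*q*e*1 ≤ 2*q*e*b := mul_le_mul_of_nonneg_left hb1 (by positivity)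
  have h3 := n6_ee99 hq hb1 he0 he1 he
  linarith

/-- `b ≥ 1` -/
theorem n6_big {b q τ e A Y x B : ℝ} (hq : 1 ≤ 2*q^2) (hq0 : 0 < q) (hb1 : 1 ≤ b)
    (hτ0 : 0 < τ) (hτ1 : τ < 1) (hA : τ ≤ A*(2*b+1)) (he0 : 0 < e) (he1 : e ≤ 1)
    (he : e^2-4*q*b*e+1 = 0) (hY : 2*q ≤ Y) (hx : x ≤ 2*q*Y - 1) (hB0 : 0 < B)
    (hB : 2*q*Y - (1-b^2)*Y^2 ≤ B^2) (hγ : 0 < e - 2*q*A) :
    1 < (1-b*τ)*Y+τ*B+(2*q*A-e)*x := by
  obtain ⟨ν, hν0, hν⟩ : ∃ ν : ℝ, 0 ≤ ν ∧ ν^2 = b^2 - 1 :=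
    ⟨Real.sqrt (b^2-1), Real.sqrt_nonneg _, Real.sq_sqrt (sub_nonneg.2 (one_le_pow₀ hb1))⟩
  have hq1 := n6_q99 hq hq0
  obtain ⟨hνb, hκ⟩ := n6_nu99 hb1 hν0 hν
  have hBl := n6_Bl99 hq0 hY hB0 hB hν
  obtain ⟨he2, hE⟩ := n6_e99 hq1 hb1 he0 he1 he
  have hA0 : 0 < A := n6_A99 (by linarith) hτ0 hA
  have hσ : 0 ≤ (1-b*τ)+τ*ν-2*q*(e-2*q*A) := by
    have h1 := n6_qA99 hq hA0
    have h2 := n6_slope99 hb1 hνb hκ hν hτ0 hτ1 hA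
    have e1 : (1-b*τ)+τ*ν-2*q*(e-2*q*A) = 1 - τ*(b-ν) - 2*q*e + 4*q^2*A := by ring
    rw [e1]; linarith
  have hγ1 := n6_gam99 hq hq0 hb1 hA0 he0 he1 he
  have h2q : 1 < 2*q := by linarith
  have hfin : 1 < 2*q - (e-2*q*A)*(4*q^2-1) := by
    have h1 := mul_pos (sub_pos.2 h2q) (sub_pos.2 hγ1)
    have e1 : (2*q-1)*(1-(e-2*q*A)*(2*q+1)) = 2*q - 1 - (e-2*q*A)*(4*q^2-1) := by ring
    linarith
  have a1 : (e-2*q*A)*x ≤ (e-2*q*A)*(2*q*Y-1) := mul_le_mul_of_nonneg_left hx hγ.le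
  have a2 : τ*(2*q*b + ν*(Y-2*q)) ≤ τ*B := mul_le_mul_of_nonneg_left hBl hτ0.le
  have a3 : 2*q - (e-2*q*A)*(4*q^2-1) + (Y-2*q)*((1-b*τ)+τ*ν-2*q*(e-2*q*A))
      = (1-b*τ)*Y + τ*(2*q*b + ν*(Y-2*q)) - (e-2*q*A)*(2*q*Y-1) := by ring
  have a4 : (2*q*A-e)*x = -((e-2*q*A)*x) := by ring
  have a5 := mul_nonneg (sub_nonneg.2 hY) hσ
  linarith

/-- `b < 1`, `k = 0` -/
theorem n6_k0 {q Y x : ℝ} (hq : 1 ≤ 2*q^2) (hq0 : 0 < q) (hY : 2*q ≤ Y) (hY1 : 1 < Y)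
    (hF : Y^2 - 1 = x*(2*q*Y-x)) : x ≤ (2*q+1)*(Y-1) := by
  by_contra hcon
  push Not at hcon
  have hq1 := n6_q99 hq hq0
  -- s = (2q+1)(Y-1) < x, s ≥ qY, so s > 2qY - x too
  have h1 : q*Y ≤ (2*q+1)*(Y-1) := by
    have h := mul_le_mul_of_nonneg_left hY (show (0:ℝ) ≤ q+1 by linarith)
    have e1 : (2*q+1)*(Y-1) - q*Y = (q+1)*Y - (2*q+1) := by ring
    have e2 : (q+1)*(2*q) = 2*q^2 + 2*q := by ring
    linarith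
  have h2 : ((2*q+1)*(Y-1) - x)*((2*q+1)*(Y-1) - (2*q*Y-x)) = (Y-1)*(2*q+2)*(Y-2*q) := by
    have : ((2*q+1)*(Y-1) - x)*((2*q+1)*(Y-1) - (2*q*Y-x)) =
      ((2*q+1)*(Y-1))^2 - 2*q*Y*((2*q+1)*(Y-1)) + x*(2*q*Y-x) := by ring
    rw [this, ← hF]; ring
  have h3 : 0 ≤ (Y-1)*(2*q+2)*(Y-2*q) := by
    apply mul_nonneg (mul_nonneg (by linarith) (by linarith)) (by linarith)
  have h4 : 0 < (2*q+1)*(Y-1) - (2*q*Y-x) := by linarith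
  have h5 := mul_neg_of_neg_of_pos (show (2*q+1)*(Y-1) - x < 0 by linarith) h4
  linarith

private theorem n6_S99 {b : ℝ} (hb1 : 0.809 ≤ b) (hb2 : b ≤ 1) :
    ∃ S : ℝ, 0 ≤ S ∧ S^2 = 4*b^2 - 2 ∧ 3.285*b - 1.873 ≤ S := by
  have hbb : 0.809*0.809 ≤ b*b := mul_le_mul hb1 hb1 (by norm_num) (by linarith)
  norm_num at hbb
  have hp := mul_nonneg (sub_nonneg.2 hb1) (sub_nonneg.2 hb2)
  have e0 : b^2 = b*b := by ring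
  have e1 : (b - 0.809)*(1-b) = 1.809*b - 0.809 - b*b := by ring
  have h0 : (0:ℝ) ≤ 4*b^2-2 := by linarith
  refine ⟨Real.sqrt (4*b^2-2), Real.sqrt_nonneg _, Real.sq_sqrt h0, ?_⟩
  apply Real.le_sqrt_of_sq_le
  have e2 : (3.285*b - 1.873)^2 = 10.791225*(b*b) - 12.30561*b + 3.508129 := by ring
  rw [e2, e0]
  linarith

/-- bound on `E = 2qe` for `b < 1` -/
theorem n6_E {b q e : ℝ} (hq : 1 ≤ 2*q^2) (hq0 : 0 < q) (hb1 : 0.809 ≤ b) (hb2 : b ≤ 1)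
    (he0 : 0 < e) (he1 : e ≤ 1) (he : e^2-4*q*b*e+1 = 0) :
    (2*q*e)*(5.285*b - 1.873) ≤ 2 := by
  have hE0 : 0 < 2*q*e := by positivity
  have h1 : (2*q*e)^2 - 4*b*(2*q*e) + 2 ≥ 0 := by
    have h : (2*q*e)^2 = 2*(2*q^2*e^2) := by ring
    have h' : 4*b*(2*q*e) = 2*(e^2+1) := by linarith
    have h'' := mul_le_mul_of_nonneg_right hq (sq_nonneg e)
    rw [h, h']
    linarith
  have hbb : 0.809*0.809 ≤ b*b := mul_le_mul hb1 hb1 (by norm_num) (by linarith)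
  norm_num at hbb
  have h2 : 2*q*e ≤ 2*b := by
    have h' : 2*b*(2*q*e) = e^2+1 := by linarith
    have he' : e^2 ≤ 1 := pow_le_one₀ he0.le he1
    have : 2*b*(2*q*e) ≤ 2*b*(2*b) := by
      have e1 : 2*b*(2*b) = 4*(b*b) := by ring
      rw [h', e1]; linarith
    exact le_of_mul_le_mul_left this (by linarith)
  obtain ⟨S, hS0, hS, h4⟩ := n6_S99 hb1 hb2
  have h3 : 2*q*e ≤ 2*b - S := by
    by_contra hcon
    push Not at hcon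
    have h5 := mul_pos (show 0 < 2*q*e - (2*b - S) by linarith) (show 0 < 2*b + S - 2*q*e by linarith)
    have e1 : (2*q*e - (2*b - S))*(2*b + S - 2*q*e)
      = -((2*q*e)^2 - 4*b*(2*q*e) + 2) + (S^2 - (4*b^2 - 2)) := by ring
    linarith
  have h5 : (2*q*e)*(2*b+S) ≤ (2*b-S)*(2*b+S) := mul_le_mul_of_nonneg_right h3 (by linarith)
  have h6 : (2*q*e)*(5.285*b - 1.873) ≤ (2*q*e)*(2*b+S) :=
    mul_le_mul_of_nonneg_left (by linarith) hE0.le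
  have e2 : (2*b-S)*(2*b+S) = 2 + (4*b^2 - 2 - S^2) := by ring
  linarith

private theorem n6_pol99 {b : ℝ} (hb1 : 0.809 ≤ b) :
    0 < 2.65*(((5.285*b - 1.873)-2)*(4*b^2+2*b-1) - (2*b^2+b-2)*(5.285*b - 1.873))
      + ((2*b+1)-(4*b^2+2*b-1))*(5.285*b - 1.873) := by
  obtain ⟨s, rfl⟩ : ∃ s, b = 0.809 + s := ⟨b - 0.809, by ring⟩
  have hs0 : 0 ≤ s := by linarith
  have e1 : 2.65*(((5.285*(0.809+s) - 1.873)-2)*(4*(0.809+s)^2+2*(0.809+s)-1)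
      - (2*(0.809+s)^2+(0.809+s)-2)*(5.285*(0.809+s) - 1.873))
      + ((2*(0.809+s)+1)-(4*(0.809+s)^2+2*(0.809+s)-1))*(5.285*(0.809+s) - 1.873)
      = 1.2164321121445 + 6.9208614315*s + 7.0450535*s^2 + 6.8705*s^3 := by ring
  rw [e1]
  positivity

private theorem n6_pol99' {b : ℝ} (hb1 : 0.809 ≤ b) :
    0 < 3.18*(((5.285*b - 1.873)-2)*(4*b^2+2*b-1)^2
        - (2*b^2+b-2)*(4*b^2+2*b-1)*(5.285*b - 1.873))
      + ((2*b+1)^2-(4*b^2+2*b-1)^2)*(5.285*b - 1.873) := by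
  obtain ⟨s, rfl⟩ : ∃ s, b = 0.809 + s := ⟨b - 0.809, by ring⟩
  have hs0 : 0 ≤ s := by linarith
  have e1 : 3.18*(((5.285*(0.809+s) - 1.873)-2)*(4*(0.809+s)^2+2*(0.809+s)-1)^2
        - (2*(0.809+s)^2+(0.809+s)-2)*(4*(0.809+s)^2+2*(0.809+s)-1)*(5.285*(0.809+s) - 1.873))
      + ((2*(0.809+s)+1)^2-(4*(0.809+s)^2+2*(0.809+s)-1)^2)*(5.285*(0.809+s) - 1.873)
      = 1.7976609183835059096 + 1.706356543628652*s + 12.642773260696*s^2 + 91.521138904*s^3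
        + 132.255948*s^4 + 49.8904*s^5 := by ring
  rw [e1]
  positivity

private theorem n6_P99 {b : ℝ} (hb1 : 0.809 ≤ b) : 0 < 4*b^2+2*b-1 ∧ 2*b+1 ≤ 4*b^2+2*b-1 := by
  have hbb : 0.809*0.809 ≤ b*b := mul_le_mul hb1 hb1 (by norm_num) (by linarith)
  norm_num at hbb
  have e0 : b^2 = b*b := by ring
  constructor <;> linarith

theorem n6_alpha {b E : ℝ} (hb1 : 0.809 ≤ b) (hb2 : b ≤ 1) (hE : E*(5.285*b - 1.873) ≤ 2) :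
    4*b^2+2*b-1 < 2.65*((1-E)*(4*b^2+2*b-1) - (2*b^2+b-2)) + (2*b+1) := by
  have hT : 0 < 5.285*b - 1.873 := by linarith
  have hP := (n6_P99 hb1).1
  have h1 := mul_le_mul_of_nonneg_right hE hP.le
  have h2 := n6_pol99 hb1
  have h3 : 0 < (2.65*((1-E)*(4*b^2+2*b-1) - (2*b^2+b-2)) + (2*b+1) - (4*b^2+2*b-1))
      * (5.285*b - 1.873) := by
    have e1 : (2.65*((1-E)*(4*b^2+2*b-1) - (2*b^2+b-2)) + (2*b+1) - (4*b^2+2*b-1))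
      * (5.285*b - 1.873) = 2.65*(((5.285*b - 1.873)-2)*(4*b^2+2*b-1) - (2*b^2+b-2)*(5.285*b - 1.873))
      + ((2*b+1)-(4*b^2+2*b-1))*(5.285*b - 1.873)
      + 2.65*(2*(4*b^2+2*b-1) - E*(5.285*b - 1.873)*(4*b^2+2*b-1)) := by ring
    rw [e1]; linarith
  have := (pos_iff_pos_of_mul_pos h3).2 hT
  linarith

theorem n6_beta {b E : ℝ} (hb1 : 0.809 ≤ b) (hb2 : b ≤ 1) (hE : E*(5.285*b - 1.873) ≤ 2) :
    (4*b^2+2*b-1)^2 < 3.18*((1-E)*(4*b^2+2*b-1)^2 - (2*b^2+b-2)*(4*b^2+2*b-1)) + (2*b+1)^2 := by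
  have hT : 0 < 5.285*b - 1.873 := by linarith
  have h1 := mul_le_mul_of_nonneg_right hE (sq_nonneg (4*b^2+2*b-1))
  have h2 := n6_pol99' hb1
  have h3 : 0 < (3.18*((1-E)*(4*b^2+2*b-1)^2 - (2*b^2+b-2)*(4*b^2+2*b-1)) + (2*b+1)^2 - (4*b^2+2*b-1)^2)
      * (5.285*b - 1.873) := by
    have e1 : (3.18*((1-E)*(4*b^2+2*b-1)^2 - (2*b^2+b-2)*(4*b^2+2*b-1)) + (2*b+1)^2 - (4*b^2+2*b-1)^2)
      * (5.285*b - 1.873) = 3.18*(((5.285*b - 1.873)-2)*(4*b^2+2*b-1)^2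
        - (2*b^2+b-2)*(4*b^2+2*b-1)*(5.285*b - 1.873))
      + ((2*b+1)^2-(4*b^2+2*b-1)^2)*(5.285*b - 1.873)
      + 3.18*(2*(4*b^2+2*b-1)^2 - E*(5.285*b - 1.873)*(4*b^2+2*b-1)^2) := by ring
    rw [e1]; linarith
  have := (pos_iff_pos_of_mul_pos h3).2 hT
  linarith

/-! ### `b < 1`, `k ≥ 1` -/

private theorem n6_ar99 {b E r : ℝ} (hb1 : 0.809 ≤ b) (hb2 : b ≤ 1) (hE : E*(5.285*b - 1.873) ≤ 2)
    (hr0 : 0 < r) (hr : r*(4*b^2+2*b-1) = 1) :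
    1 < 2.65*(1 - E - (2*b^2+b-2)*r) + (2*b+1)*r := by
  have h7 := mul_lt_mul_of_pos_left (n6_alpha hb1 hb2 hE) hr0
  have h8 : r*(2.65*((1-E)*(4*b^2+2*b-1) - (2*b^2+b-2)) + (2*b+1))
    = 2.65*((1-E)*(r*(4*b^2+2*b-1)) - (2*b^2+b-2)*r) + (2*b+1)*r := by ring
  rw [h8, hr] at h7
  linarith

private theorem n6_br99 {b E r : ℝ} (hb1 : 0.809 ≤ b) (hb2 : b ≤ 1) (hE : E*(5.285*b - 1.873) ≤ 2)
    (hr0 : 0 < r) (hr : r*(4*b^2+2*b-1) = 1) :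
    1 < 3.18*(1 - E - (2*b^2+b-2)*r) + (2*b+1)*r*((2*b+1)*r) := by
  have h7 := mul_lt_mul_of_pos_left (n6_beta hb1 hb2 hE) (mul_pos hr0 hr0)
  have h8 : r*r*(3.18*((1-E)*(4*b^2+2*b-1)^2 - (2*b^2+b-2)*(4*b^2+2*b-1)) + (2*b+1)^2)
    = 3.18*((1-E)*(r*(4*b^2+2*b-1))^2 - (2*b^2+b-2)*r*(r*(4*b^2+2*b-1))) + (2*b+1)*r*((2*b+1)*r) := by
    ring
  have h9 : r*r*(4*b^2+2*b-1)^2 = (r*(4*b^2+2*b-1))^2 := by ring
  rw [h8, h9, hr] at h7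
  linarith

private theorem n6_B99 {b Y B : ℝ} (hb0 : 0.809 ≤ b) (hY : 2.65 ≤ Y) (hY2 : Y ≤ 3.18)
    (hB0 : 0 < B) (hBY : 1.4142*Y - (1-b^2)*Y^2 ≤ B^2) : 1 ≤ B := by
  by_contra hcon
  push Not at hcon
  have h3 : B^2 < 1 := pow_lt_one₀ hB0.le hcon (by norm_num)
  have hbb : 0.809*0.809 ≤ b*b := mul_le_mul hb0 hb0 (by norm_num) (by linarith)
  norm_num at hbb
  have e0 : b^2 = b*b := by ring
  have h4 : (1-b^2)*Y^2 ≤ 0.3456*Y^2 := mul_le_mul_of_nonneg_right (by linarith) (sq_nonneg Y)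
  have h5 := mul_nonneg (sub_nonneg.2 hY) (sub_nonneg.2 hY2)
  have e1 : (Y - 2.65)*(3.18-Y) = 5.83*Y - 8.427 - Y^2 := by ring
  linarith

private theorem n6_sub99 {b Y B E r : ℝ} (hb0 : 0.809 ≤ b) (hb1 : b ≤ 1)
    (hE : E*(5.285*b - 1.873) ≤ 2) (hr0 : 0 < r) (hr : r*(4*b^2+2*b-1) = 1)
    (hY : 2.65 ≤ Y) (hB0 : 0 < B) (hrB : (2*b+1)*r ≤ B)
    (hBY : 1.4142*Y - (1-b^2)*Y^2 ≤ B^2) :
    1 ≤ (1-E)*Y + ((2*b+1)*r*B - (2*b^2+b-2)*r*Y) := by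
  have hb21 : 0 < 2*b+1 := by linarith
  have hv0 : 0 < (2*b+1)*r := mul_pos hb21 hr0
  have hv1 : (2*b+1)*r ≤ 1 := by
    have h := mul_le_mul_of_nonneg_right (n6_P99 hb0).2 hr0.le
    have e1 : (4*b^2+2*b-1)*r = r*(4*b^2+2*b-1) := by ring
    rw [e1, hr] at h
    exact h
  have ha := n6_ar99 hb0 hb1 hE hr0 hr
  have hbe := n6_br99 hb0 hb1 hE hr0 hr
  have hC0 : 0 ≤ 1 - E - (2*b^2+b-2)*r := by
    have h : (2*b+1)*r*((2*b+1)*r) ≤ 1*1 := mul_le_mul hv1 hv1 hv0.le (by norm_num)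
    linarith
  have e2 : (1-E)*Y + ((2*b+1)*r*B - (2*b^2+b-2)*r*Y)
    = (1 - E - (2*b^2+b-2)*r)*Y + (2*b+1)*r*B := by ring
  rw [e2]
  rcases le_total Y 3.18 with hY2 | hY2
  · have hB1 := n6_B99 hb0 hY hY2 hB0 hBY
    have h5 : (1 - E - (2*b^2+b-2)*r)*2.65 ≤ (1 - E - (2*b^2+b-2)*r)*Y :=
      mul_le_mul_of_nonneg_left hY hC0
    have h6 : (2*b+1)*r*1 ≤ (2*b+1)*r*B := mul_le_mul_of_nonneg_left hB1 hv0.le
    linarith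
  · have h5 : (1 - E - (2*b^2+b-2)*r)*3.18 ≤ (1 - E - (2*b^2+b-2)*r)*Y :=
      mul_le_mul_of_nonneg_left hY2 hC0
    have h6 : (2*b+1)*r*((2*b+1)*r) ≤ (2*b+1)*r*B := mul_le_mul_of_nonneg_left hrB hv0.le
    linarith

private theorem n6_w99 {b w lo hi : ℝ} (hb0 : 0 < b) (hw : w*(2*b+1) = 2)
    (hlo : lo*(2*b+1) ≤ 2) (hhi : 2 ≤ hi*(2*b+1)) : lo ≤ w ∧ w ≤ hi := by
  have hb21 : 0 < 2*b+1 := by linarith
  constructor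
  · exact le_of_mul_le_mul_right (by linarith) hb21
  · exact le_of_mul_le_mul_right (by linarith) hb21

private theorem n6_bB99 {b B r : ℝ} (hb0 : 0.809 ≤ b) (hb1 : b ≤ 1)
    (hr : r*(4*b^2+2*b-1) = 1) (hrB : (2*b+1)*r ≤ B) : 0.6 ≤ b*B := by
  have hP := (n6_P99 hb0).1
  have h2 : b*((2*b+1)*r) ≤ b*B := mul_le_mul_of_nonneg_left hrB (by linarith)
  have h3 : 0.6 ≤ b*((2*b+1)*r) := by
    by_contra hcon
    push Not at hcon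
    have h4 : b*((2*b+1)*r)*(4*b^2+2*b-1) < 0.6*(4*b^2+2*b-1) := mul_lt_mul_of_pos_right hcon hP
    have h5 : b*((2*b+1)*r)*(4*b^2+2*b-1) = 2*b^2+b := by
      have : b*((2*b+1)*r)*(4*b^2+2*b-1) = (2*b^2+b)*(r*(4*b^2+2*b-1)) := by ring
      rw [this, hr, mul_one]
    rw [h5] at h4
    have h6 : b*b ≤ 1*b := mul_le_mul_of_nonneg_right hb1 (by linarith)
    have e0 : b^2 = b*b := by ring
    rw [e0] at h4
    linarith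
  linarith

private theorem n6_Y99 {b w Y B : ℝ} (hY0 : 0 < Y) (hB0 : 0 < B) (h : B ≤ (b-w)*Y)
    (hw : w*(2*b+1) = 2) (hBY : 1.4142*Y - (1-b^2)*Y^2 ≤ B^2) : 1.4142 ≤ (w*w + w - 1)*Y := by
  have hmY : B^2 ≤ ((b-w)*Y)^2 := pow_le_pow_left₀ hB0.le h 2
  have e1 : ((b-w)*Y)^2 + (1-b^2)*Y^2 = (w*w + w - 1)*Y*Y - (w*(2*b+1) - 2)*Y*Y := by ring
  rw [hw] at e1
  have : 1.4142*Y ≤ (w*w + w - 1)*Y*Y := by linarith
  exact le_of_mul_le_mul_right this hY0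

private theorem n6_C99 {b w E c : ℝ} (hb0 : 0.809 ≤ b) (hE : E*(5.285*b - 1.873) ≤ 2)
    (hw : w*(2*b+1) = 2)
    (hf : 0 ≤ ((2 - c - b^2)*(2*b+1) - 1)*(5.285*b - 1.873) - 2*(2*b+1)) :
    c ≤ 1 - E - b*(b-w) := by
  have hT : 0 < 5.285*b - 1.873 := by linarith
  have hb21 : 0 < 2*b+1 := by linarith
  have hE' := mul_le_mul_of_nonneg_right hE hb21.le
  have e1 : (1 - E - b*(b-w) - c)*(5.285*b - 1.873)*(2*b+1)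
    = ((2 - c - b^2)*(2*b+1) - 1)*(5.285*b - 1.873) - E*(5.285*b - 1.873)*(2*b+1)
      + (w*(2*b+1) - 2)*(b*(5.285*b - 1.873)) := by ring
  rw [hw, sub_self, zero_mul, add_zero] at e1
  have h1 : 0 ≤ (1 - E - b*(b-w) - c)*(5.285*b - 1.873)*(2*b+1) := by rw [e1]; linarith
  have h2 : 0 ≤ (1 - E - b*(b-w) - c)*(5.285*b - 1.873) := nonneg_of_mul_nonneg_left h1 hb21
  have h3 : 0 ≤ 1 - E - b*(b-w) - c := nonneg_of_mul_nonneg_left h2 hT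
  linarith

private theorem n6_f1 {b : ℝ} (hb0 : 0.809 ≤ b) (hb1 : b ≤ 0.9) :
    0 ≤ ((2 - 0.12 - b^2)*(2*b+1) - 1)*(5.285*b - 1.873) - 2*(2*b+1) := by
  obtain ⟨s, rfl⟩ : ∃ s, b = 0.809 + s := ⟨b - 0.809, by ring⟩
  have hs0 : 0 ≤ s := by linarith
  have h2 : s*s ≤ 0.091*s := mul_le_mul_of_nonneg_right (by linarith) hs0
  have h3 : s*s*s ≤ 0.091*s*s := mul_le_mul_of_nonneg_right h2 hs0
  have h4 : s*s*s*s ≤ 0.091*s*s*s := mul_le_mul_of_nonneg_right h3 hs0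
  have e1 : ((2 - 0.12 - (0.809+s)^2)*(2*(0.809+s)+1) - 1)*(5.285*(0.809+s) - 1.873)
      - 2*(2*(0.809+s)+1)
      = 0.06984554922323 + 3.38313556888*s - 23.49773802*(s*s) - 35.74352*(s*s*s)
        - 10.57*(s*s*s*s) := by ring
  rw [e1]
  linarith

private theorem n6_f2 {b : ℝ} (hb0 : 0.9 ≤ b) (hb1 : b ≤ 1) :
    0 ≤ ((2 - 0.07 - b^2)*(2*b+1) - 1)*(5.285*b - 1.873) - 2*(2*b+1) := by
  obtain ⟨s, rfl⟩ : ∃ s, b = 0.9 + s := ⟨b - 0.9, by ring⟩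
  have hs0 : 0 ≤ s := by linarith
  have h2 : s*s ≤ 0.1*s := mul_le_mul_of_nonneg_right (by linarith) hs0
  have h3 : s*s*s ≤ 0.1*s*s := mul_le_mul_of_nonneg_right h2 hs0
  have h4 : s*s*s*s ≤ 0.1*s*s*s := mul_le_mul_of_nonneg_right h3 hs0
  have e1 : ((2 - 0.07 - (0.9+s)^2)*(2*(0.9+s)+1) - 1)*(5.285*(0.9+s) - 1.873)
      - 2*(2*(0.9+s)+1)
      = 0.559156 - 0.78504*s - 33.2524*(s*s) - 39.591*(s*s*s) - 10.57*(s*s*s*s) := by ring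
  rw [e1]
  linarith

private theorem n6_sec99 {b w Y B E : ℝ} (hb0 : 0.809 ≤ b) (hb1 : b ≤ 1)
    (hE : E*(5.285*b - 1.873) ≤ 2) (hw : w*(2*b+1) = 2) (hY0 : 0 < Y) (hB0 : 0 < B)
    (h : B ≤ (b-w)*Y) (hBY : 1.4142*Y - (1-b^2)*Y^2 ≤ B^2) (hbB : 0.6 ≤ b*B) :
    1 ≤ (1-E)*Y + b*(B-(b-w)*Y) := by
  have hY3 := n6_Y99 hY0 hB0 h hw hBY
  have e3 : (1-E)*Y + b*(B-(b-w)*Y) = (1 - E - b*(b-w))*Y + b*B := by ring
  rw [e3]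
  rcases le_total b 0.9 with hb9 | hb9
  · obtain ⟨hw1, hw2⟩ := n6_w99 (lo := 0.6) (hi := 0.7640) (by linarith) hw (by linarith) (by linarith)
    have hww : w*w ≤ 0.7640*0.7640 := mul_le_mul hw2 hw2 (by linarith) (by norm_num)
    norm_num at hww
    have hY4 : 4 ≤ Y := by
      have := mul_le_mul_of_nonneg_right (show w*w + w - 1 ≤ 0.3485 by linarith) hY0.le
      linarith
    have hCb := n6_C99 hb0 hE hw (n6_f1 hb0 hb9)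
    have h2 : 0.12*4 ≤ (1 - E - b*(b-w))*Y := mul_le_mul hCb hY4 (by norm_num) (by linarith)
    linarith
  · obtain ⟨hw1, hw2⟩ := n6_w99 (lo := 0.6) (hi := 0.7143) (by linarith) hw (by linarith) (by linarith)
    have hww : w*w ≤ 0.7143*0.7143 := mul_le_mul hw2 hw2 (by linarith) (by norm_num)
    norm_num at hww
    have hY4 : 6.2 ≤ Y := by
      have := mul_le_mul_of_nonneg_right (show w*w + w - 1 ≤ 0.2246 by linarith) hY0.le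
      linarith
    have hCb := n6_C99 hb0 hE hw (n6_f2 hb9 hb1)
    have h2 : 0.07*6.2 ≤ (1 - E - b*(b-w))*Y := mul_le_mul hCb hY4 (by norm_num) (by linarith)
    linarith

private theorem n6_hL99 {b q τ e A Y x B w : ℝ} (hY0 : 0 < Y) (hx : x ≤ 2*q*Y - 1)
    (hγ : 0 < e - 2*q*A) (hwA : w*τ ≤ 4*q^2*A) :
    (1-2*q*e)*Y + τ*(B-(b-w)*Y) < (1-b*τ)*Y+τ*B+(2*q*A-e)*x := by
  have a1 : (e-2*q*A)*x ≤ (e-2*q*A)*(2*q*Y-1) := mul_le_mul_of_nonneg_left hx hγ.le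
  have a2 : (e-2*q*A)*(2*q*Y-1) = 2*q*e*Y - 4*q^2*A*Y - (e - 2*q*A) := by ring
  have a3 : w*τ*Y ≤ 4*q^2*A*Y := mul_le_mul_of_nonneg_right hwA hY0.le
  have a4 : (2*q*A-e)*x = -((e-2*q*A)*x) := by ring
  have a5 : τ*(B-(b-w)*Y) = τ*B - b*τ*Y + w*τ*Y := by ring
  rw [a4, a5]
  linarith

/-- `b < 1`, `k ≥ 1` -/
theorem n6_k1 {b q τ e A Y x B : ℝ} (hq : 1 ≤ 2*q^2) (hq0 : 0 < q) (hb0 : 0.809 ≤ b) (hb1 : b ≤ 1)
    (hτ0 : 0 < τ) (hτb : τ ≤ b) (hτ5 : 2*b+1 ≤ τ*(4*b^2+2*b-1)) (hA : τ ≤ A*(2*b+1))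
    (he0 : 0 < e) (he1 : e ≤ 1)
    (he : e^2-4*q*b*e+1 = 0) (hY : 2.65 ≤ Y) (hx : x ≤ 2*q*Y - 1) (hBτ : τ < B)
    (hB : 2*q*Y - (1-b^2)*Y^2 ≤ B^2) (hγ : 0 < e - 2*q*A) :
    1 < (1-b*τ)*Y+τ*B+(2*q*A-e)*x := by
  have hq1 := n6_q99 hq hq0
  have hY0 : 0 < Y := by linarith
  have hB0 : 0 < B := by linarith
  have hEb := n6_E hq hq0 hb0 hb1 he0 he1 he
  have hP := (n6_P99 hb0).1
  have hb21 : 0 < 2*b+1 := by linarith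
  obtain ⟨w, hw⟩ : ∃ w : ℝ, w*(2*b+1) = 2 := ⟨2/(2*b+1), div_mul_cancel₀ 2 hb21.ne'⟩
  obtain ⟨r, hr⟩ : ∃ r : ℝ, r*(4*b^2+2*b-1) = 1 :=
    ⟨1/(4*b^2+2*b-1), one_div_mul_cancel hP.ne'⟩
  have hr0 : 0 < r := (pos_iff_pos_of_mul_pos (by rw [hr]; norm_num)).2 hP
  have hw0 : 0 < w := (pos_iff_pos_of_mul_pos (by rw [hw]; norm_num)).2 hb21
  have hA0 : 0 < A := n6_A99 (by linarith) hτ0 hA
  -- w τ ≤ 4 q^2 A
  have hwA : w*τ ≤ 4*q^2*A := by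
    have h1 : w*τ ≤ w*(A*(2*b+1)) := mul_le_mul_of_nonneg_left hA hw0.le
    have h2 : w*(A*(2*b+1)) = (w*(2*b+1))*A := by ring
    rw [h2, hw] at h1
    exact h1.trans (n6_qA99 hq hA0)
  -- reduction : L > (1-E) Y + τ (B - (b-w) Y)
  refine lt_of_le_of_lt ?_ (n6_hL99 (b := b) (B := B) hY0 hx hγ hwA)
  -- τ ≥ τ5
  have hτr : (2*b+1)*r ≤ τ := by
    have h1 := mul_le_mul_of_nonneg_right hτ5 hr0.le
    have h2 : τ*(4*b^2+2*b-1)*r = τ*(r*(4*b^2+2*b-1)) := by ring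
    rw [h2, hr, mul_one] at h1
    exact h1
  have hBY : 1.4142*Y - (1-b^2)*Y^2 ≤ B^2 := by
    have : 1.4142*Y ≤ 2*q*Y := mul_le_mul_of_nonneg_right (by linarith) hY0.le
    linarith
  have hrB : (2*b+1)*r ≤ B := by linarith
  rcases le_total ((b-w)*Y) B with h | h
  · -- first sub-case
    have h1 : (2*b+1)*r*(B-(b-w)*Y) ≤ τ*(B-(b-w)*Y) :=
      mul_le_mul_of_nonneg_right hτr (sub_nonneg.2 h)
    have h2 : (2*b+1)*r*(B-(b-w)*Y)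
      = (2*b+1)*r*B - (2*b^2+b-2)*r*Y + (w*(2*b+1) - 2)*(r*Y) := by ring
    rw [hw, sub_self, zero_mul, add_zero] at h2
    have h3 := n6_sub99 hb0 hb1 hEb hr0 hr hY hB0 hrB hBY
    rw [h2] at h1
    exact h3.trans (add_le_add_right h1 _)
  · -- second sub-case
    have h1 : b*(B-(b-w)*Y) ≤ τ*(B-(b-w)*Y) :=
      mul_le_mul_of_nonpos_right hτb (sub_nonpos.2 h)
    have h2 := n6_sec99 hb0 hb1 hEb hw hY0 hB0 h hBY (n6_bB99 hb0 hb1 hr hrB)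
    exact h2.trans (add_le_add_right h1 _)

/-! ### The inequality -/

private theorem n6_b99 {b : ℝ} (hb0 : 0 < b) (hb : 2*b+1 ≤ 4*b^2) : 0.809 ≤ b := by
  by_contra hcon
  push Not at hcon
  have h1 : b*b ≤ 0.809*b := mul_le_mul_of_nonneg_right hcon.le hb0.le
  have e0 : b^2 = b*b := by ring
  linarith

private theorem n6_A5 {b τ A : ℝ} (hb8 : 0.809 ≤ b) (hb1 : b ≤ 1)
    (hτ5 : 2*b+1 ≤ τ*(4*b^2+2*b-1)) (hA : τ ≤ A*(2*b+1)) : 0.2 ≤ A := by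
  have hP := (n6_P99 hb8).1
  have hP5 : 4*b^2+2*b-1 ≤ 5 := by
    have : b^2 ≤ 1 := pow_le_one₀ (by linarith) hb1
    linarith
  by_contra hcon
  push Not at hcon
  have hb21 : 0 < 2*b+1 := by linarith
  have h1 : A*(2*b+1)*(4*b^2+2*b-1) < 0.2*(2*b+1)*(4*b^2+2*b-1) :=
    mul_lt_mul_of_pos_right (mul_lt_mul_of_pos_right hcon hb21) hP
  have h2 : τ*(4*b^2+2*b-1) ≤ A*(2*b+1)*(4*b^2+2*b-1) := mul_le_mul_of_nonneg_right hA hP.le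
  have h3 : 0.2*(2*b+1)*(4*b^2+2*b-1) ≤ 0.2*(2*b+1)*5 :=
    mul_le_mul_of_nonneg_left hP5 (mul_nonneg (by norm_num) hb21.le)
  linarith

private theorem n6_gam0 {b q e A : ℝ} (hq : 1 ≤ 2*q^2) (hq0 : 0 < q) (hb8 : 0.809 ≤ b)
    (hb1 : b ≤ 1) (he0 : 0 < e) (he1 : e ≤ 1) (he : e^2-4*q*b*e+1 = 0) (hA5 : 0.2 ≤ A) :
    (e - 2*q*A)*(2*q+1) < 1 := by
  have hq1 := n6_q99 hq hq0
  have hEb := n6_E hq hq0 hb8 hb1 he0 he1 he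
  have hE0 : 0 < 2*q*e := by positivity
  have hE : 2*q*e ≤ 0.84 := by
    have h1 : 2*q*e*2.4 ≤ 2*q*e*(5.285*b - 1.873) :=
      mul_le_mul_of_nonneg_left (by linarith) hE0.le
    linarith
  have he2 : e ≤ 0.6 := by
    have h1 : 1.4142*e ≤ 2*q*e := mul_le_mul_of_nonneg_right (by linarith) he0.le
    linarith
  have h1 : 2*q*0.2 ≤ 2*q*A := mul_le_mul_of_nonneg_left hA5 (by linarith)
  have h2 : (e - 2*q*A)*(2*q+1) ≤ (e - 2*q*0.2)*(2*q+1) :=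
    mul_le_mul_of_nonneg_right (by linarith) (by linarith)
  have e1 : (e - 2*q*0.2)*(2*q+1) = 2*q*e + e - 0.4*(2*q^2) - 0.4*q := by ring
  linarith

theorem n6 {b q τ e A X Y x : ℝ} (hq : 1 ≤ 2*q^2) (hq0 : 0 < q) (hb0 : 0 < b)
    (hb : 2*b+1 ≤ 4*b^2) (hτ0 : 0 < τ) (hτb : τ ≤ b) (hτ1 : τ < 1) (hΔ : 0 < 1-2*b*τ+τ^2)
    (hτ5 : 2*b+1 ≤ τ*(4*b^2+2*b-1)) (hA : τ ≤ A*(2*b+1)) (he0 : 0 < e) (he1 : e ≤ 1)
    (he : e^2-4*q*b*e+1 = 0) (hY : 1 ≤ Y) (hx : 1 ≤ x) (hN : 1 ≤ 2*q*Y-x)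
    (hk : 2*b*Y-X = 0 ∨ 1 ≤ 2*b*Y-X) (hn : Y^2+X^2+x^2-2*b*X*Y-2*q*Y*x = 1)
    (hB : τ < X-b*Y) : 1 < (1-b*τ)*Y+τ*(X-b*Y)+(2*q*A-e)*x := by
  have hq1 := n6_q99 hq hq0
  have hb8 := n6_b99 hb0 hb
  obtain ⟨B, rfl⟩ : ∃ B, X = b*Y + B := ⟨X - b*Y, by ring⟩
  have hBe : b*Y + B - b*Y = B := by ring
  rw [hBe] at hB ⊢
  have hB0 : 0 < B := by linarith
  have hY0 : 0 < Y := by linarith
  have hbY : 0 < b*Y := mul_pos hb0 hY0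
  have hk' : B = b*Y ∨ 1 ≤ b*Y - B := by
    rcases hk with h | h
    · left; linarith
    · right; linarith
  have hk0 : 0 ≤ b*Y - B := by rcases hk' with h | h <;> linarith
  have hBsq : B^2 = 1 - (1-b^2)*Y^2 + x*(2*q*Y-x) := by linear_combination hn
  have hxN : 2*q*Y - 1 ≤ x*(2*q*Y-x) := by
    have h := mul_nonneg (sub_nonneg.2 hx) (sub_nonneg.2 hN)
    have e1 : (x-1)*(2*q*Y-x-1) = x*(2*q*Y-x) - 2*q*Y + 1 := by ring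
    linarith
  have hB2 : 2*q*Y - (1-b^2)*Y^2 ≤ B^2 := by linarith
  have hkX : (b*Y-B)*(b*Y+B) = Y^2 - 1 - x*(2*q*Y-x) := by
    have : (b*Y-B)*(b*Y+B) = b^2*Y^2 - B^2 := by ring
    rw [this, hBsq]; ring
  have hYq : 2*q ≤ Y := by
    have h1 : 0 ≤ (b*Y-B)*(b*Y+B) := mul_nonneg hk0 (by linarith)
    have e1 : Y*(Y-2*q) = Y^2 - 2*q*Y := by ring
    have h2 : 0 ≤ Y*(Y-2*q) := by rw [e1]; linarith
    have := nonneg_of_mul_nonneg_right h2 hY0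
    linarith
  have hR := n6_R hτ0 hτb hY0 hYq hB0 hB2
  have h2q : 1 < 2*q := by linarith
  have hxl : x ≤ 2*q*Y - 1 := by linarith
  rcases le_or_gt (e - 2*q*A) 0 with hγ | hγ
  · have : 0 ≤ (2*q*A-e)*x := mul_nonneg (by linarith) (by linarith)
    linarith
  rcases le_or_gt 1 b with hb1 | hb1
  · exact n6_big hq hq0 hb1 hτ0 hτ1 hA he0 he1 he hYq hxl hB0 hB2 hγ
  rcases hk' with h | h
  · -- k = 0
    have hF : Y^2 - 1 = x*(2*q*Y-x) := by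
      rw [h] at hkX
      have : (b*Y-b*Y)*(b*Y+b*Y) = 0 := by ring
      rw [this] at hkX; linarith
    have hY1 : 1 < Y := by linarith
    have hxk := n6_k0 hq hq0 hYq hY1 hF
    -- γ (2q+1) < 1
    have hγ1 := n6_gam0 hq hq0 hb8 hb1.le he0 he1 he (n6_A5 hb8 hb1.le hτ5 hA)
    have h3 : (e-2*q*A)*x ≤ (e-2*q*A)*((2*q+1)*(Y-1)) := mul_le_mul_of_nonneg_left hxk hγ.le
    have h4 : 0 < (1 - (e - 2*q*A)*(2*q+1))*(Y-1) := mul_pos (by linarith) (by linarith)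
    rw [h]
    have e1 : (1-b*τ)*Y+τ*(b*Y)+(2*q*A-e)*x = Y - (e-2*q*A)*x := by ring
    have e2 : (1 - (e - 2*q*A)*(2*q+1))*(Y-1) = Y - 1 - (e-2*q*A)*((2*q+1)*(Y-1)) := by ring
    rw [e1]; linarith
  · -- k ≥ 1
    have hX1 : 1 ≤ b*Y + B := by linarith
    have h1 : 2*b*Y - 1 ≤ (b*Y-B)*(b*Y+B) := by
      have h := mul_nonneg (sub_nonneg.2 h) (sub_nonneg.2 hX1)
      have e1 : (b*Y-B-1)*(b*Y+B-1) = (b*Y-B)*(b*Y+B) - 2*b*Y + 1 := by ring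
      linarith
    have h2 : 0 ≤ Y^2 - 2*(b+q)*Y + 1 := by
      have e1 : Y^2 - 2*(b+q)*Y + 1 = (Y^2 - 2*q*Y) - (2*b*Y - 1) := by ring
      rw [e1]; linarith
    have hY2 : 2.65 ≤ Y := by
      by_contra hcon
      push Not at hcon
      have h4 : 0 ≤ (2.65-Y)*(Y-1.41) := mul_nonneg (by linarith) (by linarith)
      have h5 : 1.516*Y ≤ (b+q)*Y := mul_le_mul_of_nonneg_right (by linarith) hY0.le
      have h6 : (2.65-Y)*(Y-1.41) = -Y^2 + 4.06*Y - 3.7365 := by ring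
      linarith
    exact n6_k1 hq hq0 hb8 hb1.le hτ0 hτb hτ5 hA he0 he1 he hY2 hxl hB hB2 hγ

end Pool.Agent.Helper81.DY
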